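import Mathlib
import Pool.Agent.Y781.DMAdm

/-!
# The Diwan-Mubayi inequality for two-coloured complete graphs with suitable pairings, and for
everything obtained from them by adding dominating or isolated vertices
-/

namespace Pool.Agent.Results.MP_6dea24_co.PairingClosure

open Pool.Agent.Y781.DM

/-- **Main result.** For every admissible `F` on `k` vertices there is `p` in `[0, 1]` such that
every two-coloured multigraph `(R, B)` of order `n` which does not contain `H` satisfies
`p e(R) + (1 - p) e(B) ≤ (1 - 1 / (k - 1)) n ^ 2 / 2`, and hence the same bound holds for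
`min (e(R)) (e(B))`. -/
theorem result {k : ℕ} (hk : 2 ≤ k) (F : SimpleGraph (Fin k)) (hF : Admissible F) :
    (∃ p : ℝ, 0 ≤ p ∧ p ≤ 1 ∧ ∀ (n : ℕ) (R B : SimpleGraph (Fin n)), ¬ Contains F R B →
      p * (R.edgeSet.ncard : ℝ) + (1 - p) * B.edgeSet.ncard ≤
        (1 - 1 / ((k : ℝ) - 1)) * (n : ℝ) ^ 2 / 2) ∧
    ∀ (n : ℕ) (R B : SimpleGraph (Fin n)), ¬ Contains F R B →
      min (R.edgeSet.ncard : ℝ) B.edgeSet.ncard ≤
        (1 - 1 / ((k : ℝ) - 1)) * (n : ℝ) ^ 2 / 2 :=
  main hk F hF

end Pool.Agent.Results.MP_6dea24_co.PairingClosure
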