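import Mathlib
import Pool.Agent.Y781.DMSmall

/-!
# The Diwan-Mubayi inequality for all non-exceptional two-coloured complete graphs of order at most
five
-/

namespace Pool.Agent.Results.MP_6dea24_co.SmallOrder

open Pool.Agent.Y781.DM

/-- every connected component of `F` is isomorphic to `K_{s,s}` for some `s ≥ 1` (which may depend
on the component) -/
def BalancedBipartiteComponents {k : ℕ} (F : SimpleGraph (Fin k)) : Prop :=
  ∀ c : F.ConnectedComponent, ∃ s : ℕ, 1 ≤ s ∧
    Nonempty (F.induce c.supp ≃g completeBipartiteGraph (Fin s) (Fin s))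

/-- the two-coloured complete graph with red graph `F` is exceptional -/
def Exceptional {k : ℕ} (F : SimpleGraph (Fin k)) : Prop :=
  (k = 4 ∨ k = 6 ∨ k = 8) ∧
    (BalancedBipartiteComponents F ∨ BalancedBipartiteComponents Fᶜ)

/-- **Main result.** -/
theorem result {k : ℕ} (hk2 : 2 ≤ k) (hk5 : k ≤ 5) (F : SimpleGraph (Fin k))
    (hF : ¬ Exceptional F) :
    (∃ p : ℝ, 0 ≤ p ∧ p ≤ 1 ∧ ∀ (n : ℕ) (R B : SimpleGraph (Fin n)), ¬ Contains F R B →
      p * (R.edgeSet.ncard : ℝ) + (1 - p) * B.edgeSet.ncard ≤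
        (1 - 1 / ((k : ℝ) - 1)) * (n : ℝ) ^ 2 / 2) ∧
    ∀ (n : ℕ) (R B : SimpleGraph (Fin n)), ¬ Contains F R B →
      min (R.edgeSet.ncard : ℝ) B.edgeSet.ncard ≤
        (1 - 1 / ((k : ℝ) - 1)) * (n : ℝ) ^ 2 / 2 := by
  refine main hk2 F ?_
  interval_cases k
  · exact Small.adm2 F
  · exact Small.adm3 F
  · rcases Small.adm_four F with h | h
    · exact h
    · exact absurd ⟨Or.inl rfl, h⟩ hF
  · exact Small.adm_five F

end Pool.Agent.Results.MP_6dea24_co.SmallOrder
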